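import Pool.Agent.helper48.TH.Spec

set_option autoImplicit false

namespace TP.TW

open DP MeasureTheory Finset

open Classical in
theorem INF_av_ind (n : ℕ) (p : ℝ) (hp : p ≠ 0) (E F : (Fin n → Bool) → Prop) :
    (#{x | E x ∧ F x} : ℝ) / 2 ^ n = p * av (fun x => if F x then (if E x then 1 / p else 0) else 0) := by
  unfold av
  have h1 : ∀ x : Fin n → Bool, (if F x then (if E x then 1 / p else 0) else 0 : ℝ) = if (E x ∧ F x) then 1 / p else 0 := by
    intro x
    by_cases hF : F x <;> by_cases hE : E x <;> simp [hF, hE]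
  rw [Finset.sum_congr rfl (fun x _ => h1 x), ← Finset.sum_filter, Finset.sum_const, nsmul_eq_mul]
  field_simp

open Classical in
theorem INF_Et (n : ℕ) (p : ℝ) (hp : 0 < p) (E : (Fin n → Bool) → Prop) (h : p = (#{x | E x} : ℝ) / 2 ^ n) :
    av (fun x => if E x then 1 / p else 0) = 1 ∧ Et (fun x => if E x then 1 / p else 0) = Real.log (1 / p) := by
  have h2 : (#{x | E x} : ℝ) = p * 2 ^ n := by
    rw [h]; field_simp
  have h1 : av (fun x => if E x then 1 / p else 0) = 1 := by
    unfold av
    rw [← Finset.sum_filter, Finset.sum_const, nsmul_eq_mul, h2]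
    field_simp
  refine ⟨h1, ?_⟩
  unfold Et
  rw [h1]
  have h3 : ph 1 = 0 := by unfold ph; simp
  rw [h3]
  unfold av
  have h4 : ∀ x : Fin n → Bool, ph (if E x then 1 / p else 0) = if E x then (1 / p) * Real.log (1 / p) else 0 := by
    intro x
    by_cases hE : E x <;> simp [hE, ph]
  rw [Finset.sum_congr rfl (fun x _ => h4 x), ← Finset.sum_filter, Finset.sum_const, nsmul_eq_mul, h2]
  field_simp
  simp

open Classical in
theorem INF (she : SHE_stmt) (yng : YNG_stmt) (cxe : CXE_stmt) : INF_stmt := by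
  intro n κ T E F Λ A M p hp hE hF hM
  have h2n : (0 : ℝ) < 2 ^ n := by positivity
  have hp0 : 0 ≤ p := by rw [hp]; positivity
  rcases hp0.eq_or_lt with h0 | hpos
  · have hc : (#{x | E x} : ℝ) = 0 := by
      rw [← h0] at hp
      have := hp.symm
      rcases div_eq_zero_iff.mp this with h | h
      · exact h
      · exact absurd h (ne_of_gt h2n)
    have hE0 : ∀ x, ¬ E x := by
      intro x hx
      have : #{x | E x} = 0 := by exact_mod_cast hc
      rw [Finset.card_eq_zero] at this
      have hx' : x ∈ (univ.filter fun x => E x) := by simp [hx]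
      rw [this] at hx'
      simp at hx'
    rw [← h0]
    simp [hE0]
  · set f : (Fin n → Bool) → ℝ := fun x => if E x then 1 / p else 0 with hf
    have hf0 : ∀ x, 0 ≤ f x := by
      intro x; rw [hf]; dsimp only; split_ifs
      · positivity
      · exact le_refl _
    obtain ⟨hav, hEt⟩ := INF_Et n p hpos E hp
    obtain ⟨d, hd0, hds, hdA⟩ := she n f hf0
    have hone : ∀ τ ∈ T, (#{x | E x ∧ F τ x} : ℝ) / 2 ^ n ≤ p * (∑ i ∈ A τ ∩ Λ, d i) + 2 * p * ((#{x | F τ x} : ℝ) / 2 ^ n) := by
      intro τ hτ
      obtain ⟨c1, c2, c3, c4⟩ := cxe n (A τ) f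
      have e4 := c4 Λ (by
        intro x y hxy
        have := hE x y hxy
        rw [hf]; dsimp only
        by_cases hx : E x
        · rw [if_pos hx, if_pos (this.mp hx)]
        · rw [if_neg hx, if_neg (fun h => hx (this.mpr h))])
      have e3 := c3 (F τ) (hF τ hτ)
      rw [INF_av_ind n p hpos.ne' E (F τ)]
      have e5 := yng n (cex (A τ) f) (F τ) (c1 hf0) (by rw [c2, hf]; exact hav)
      have e6 : Et (cex (A τ) f) ≤ ∑ i ∈ A τ ∩ Λ, d i := by
        rw [e4]; exact hdA _
      have e7 : av (fun x => if F τ x then (if E x then 1 / p else 0) else 0) = av (fun x => if F τ x then cex (A τ) f x else 0) := by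
        rw [← e3]
      rw [e7]
      have := mul_le_mul_of_nonneg_left (e5.trans (add_le_add_left e6 _)) hpos.le
      linarith
    have hsum := Finset.sum_le_sum hone
    rw [Finset.sum_add_distrib, ← Finset.mul_sum, ← Finset.mul_sum] at hsum
    refine hsum.trans ?_
    have hdd : ∑ τ ∈ T, ∑ i ∈ A τ ∩ Λ, d i ≤ M * Real.log (1 / p) := by
      have s1 : ∑ τ ∈ T, ∑ i ∈ A τ ∩ Λ, d i = ∑ i ∈ Λ, ∑ τ ∈ T with i ∈ A τ, d i := by
        have : ∀ τ ∈ T, ∑ i ∈ A τ ∩ Λ, d i = ∑ i ∈ Λ, if i ∈ A τ then d i else 0 := by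
          intro τ _
          rw [← Finset.sum_filter]
          apply Finset.sum_congr
          · ext i; simp [and_comm]
          · intro _ _; rfl
        rw [Finset.sum_congr rfl this, Finset.sum_comm]
        apply Finset.sum_congr rfl
        intro i _
        rw [Finset.sum_filter]
      rw [s1]
      have s2 : ∀ i ∈ Λ, ∑ τ ∈ T with i ∈ A τ, d i ≤ M * d i := by
        intro i hi
        rw [Finset.sum_const, nsmul_eq_mul]
        apply mul_le_mul_of_nonneg_right _ (hd0 i)
        exact_mod_cast hM i hi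
      refine (Finset.sum_le_sum s2).trans ?_
      rw [← Finset.mul_sum]
      apply mul_le_mul_of_nonneg_left _ (Nat.cast_nonneg M)
      rw [← hEt, ← hds]
      exact Finset.sum_le_sum_of_subset_of_nonneg (Finset.subset_univ _) (fun i _ _ => hd0 i)
    have := mul_le_mul_of_nonneg_left hdd hpos.le
    linarith

end TP.TW
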