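import Pool.Agent.helper48.TH.Spec

set_option autoImplicit false

namespace TP.TW

open DP MeasureTheory Finset

open Classical in
theorem INP (inf : INF_stmt) (prn : PRN_stmt) : INP_stmt := by
  intro κ T E F Λ A M hE hF hM
  set Ω : Finset V := Λ ∪ T.biUnion A with hΩ
  have hΛΩ : Λ ⊆ Ω := Finset.subset_union_left
  have hAΩ : ∀ τ ∈ T, A τ ⊆ Ω := fun τ hτ => (Finset.subset_biUnion_of_mem A hτ).trans Finset.subset_union_right
  let ε : Fin #Ω → V := fun i => (Ω.equivFin.symm i).1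
  have hε : Function.Injective ε := by
    intro i j hij
    exact Ω.equivFin.symm.injective (Subtype.ext hij)
  have hεv : ∀ (v : V) (h : v ∈ Ω), ε (Ω.equivFin ⟨v, h⟩) = v := by
    intro v h
    show (Ω.equivFin.symm (Ω.equivFin ⟨v, h⟩)).1 = v
    rw [Equiv.symm_apply_apply]
  let ex : (Fin #Ω → Bool) → (V → Bool) := fun x v => if h : v ∈ Ω then x (Ω.equivFin ⟨v, h⟩) else false
  have hexv : ∀ (x : Fin #Ω → Bool) (v : V) (h : v ∈ Ω), ex x v = x (Ω.equivFin ⟨v, h⟩) := by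
    intro x v h
    show (if h : v ∈ Ω then x (Ω.equivFin ⟨v, h⟩) else false) = _
    rw [dif_pos h]
  have hβ : ∀ (β : V → Bool) (v : V), v ∈ Ω → ex (fun i => β (ε i)) v = β v := by
    intro β v h
    have h1 := hexv (fun i => β (ε i)) v h
    have h2 : β (ε (Ω.equivFin ⟨v, h⟩)) = β v := by rw [hεv v h]
    exact h1.trans h2
  have hG : ∀ (G : Set (V → Bool)) (Γ : Finset V), Γ ⊆ Ω → CD G Γ → ∀ β : V → Bool, (ex (fun i => β (ε i)) ∈ G ↔ β ∈ G) := by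
    intro G Γ hΓ hcd β
    exact hcd _ _ (fun v hv => hβ β v (hΓ hv))
  have hGP : ∀ (G : Set (V → Bool)) (Γ : Finset V), Γ ⊆ Ω → CD G Γ → Pr G = (#{x : Fin #Ω → Bool | ex x ∈ G} : ℝ) / 2 ^ #Ω := by
    intro G Γ hΓ hcd
    have h1 := prn #Ω ε hε (fun x => ex x ∈ G)
    rw [← h1]
    congr 1
    ext β
    exact (hG G Γ hΓ hcd β).symm
  have hGD : ∀ (G : Set (V → Bool)) (Γ : Finset V), Γ ⊆ Ω → CD G Γ → ∀ x y : Fin #Ω → Bool,
      (∀ i ∈ (univ.filter fun i => ε i ∈ Γ), x i = y i) → (ex x ∈ G ↔ ex y ∈ G) := by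
    intro G Γ hΓ hcd x y hxy
    apply hcd
    intro v hv
    rw [hexv x v (hΓ hv), hexv y v (hΓ hv)]
    apply hxy
    rw [Finset.mem_filter]
    exact ⟨Finset.mem_univ _, by rw [hεv v (hΓ hv)]; exact hv⟩
  have key := inf #Ω κ T (fun x => ex x ∈ E) (fun τ x => ex x ∈ F τ) (univ.filter fun i => ε i ∈ Λ) (fun τ => univ.filter fun i => ε i ∈ A τ) M (Pr E)
    (hGP E Λ hΛΩ hE) (fun x y h => hGD E Λ hΛΩ hE x y h) (fun τ hτ x y h => hGD (F τ) (A τ) (hAΩ τ hτ) (hF τ hτ) x y h) (by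
      intro i hi
      have hi' := (Finset.mem_filter.mp hi).2
      refine le_trans (le_of_eq ?_) (hM (ε i) hi')
      congr 1
      ext τ
      simp)
  have e1 : ∀ τ ∈ T, Pr (E ∩ F τ) = (#{x : Fin #Ω → Bool | ex x ∈ E ∧ ex x ∈ F τ} : ℝ) / 2 ^ #Ω := by
    intro τ hτ
    have h5 : E ∩ F τ = {β : V → Bool | ex (fun i => β (ε i)) ∈ E ∧ ex (fun i => β (ε i)) ∈ F τ} := by
      ext β
      constructor
      · rintro ⟨h1, h2⟩
        exact ⟨(hG E Λ hΛΩ hE β).mpr h1, (hG (F τ) (A τ) (hAΩ τ hτ) (hF τ hτ) β).mpr h2⟩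
      · rintro ⟨h1, h2⟩
        exact ⟨(hG E Λ hΛΩ hE β).mp h1, (hG (F τ) (A τ) (hAΩ τ hτ) (hF τ hτ) β).mp h2⟩
    have h6 := prn #Ω ε hε (fun x => ex x ∈ E ∧ ex x ∈ F τ)
    have h7 : ∀ (i1 i2 : DecidablePred fun x : Fin #Ω → Bool => ex x ∈ E ∧ ex x ∈ F τ),
        (#(@Finset.filter _ (fun x => ex x ∈ E ∧ ex x ∈ F τ) i1 univ) : ℝ) / 2 ^ #Ω =
          (#(@Finset.filter _ (fun x => ex x ∈ E ∧ ex x ∈ F τ) i2 univ) : ℝ) / 2 ^ #Ω := by
      intro i1 i2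
      rw [Subsingleton.elim i1 i2]
    rw [h5]
    exact h6.trans (h7 _ _)
  have e2 : ∀ τ ∈ T, Pr (F τ) = (#{x : Fin #Ω → Bool | ex x ∈ F τ} : ℝ) / 2 ^ #Ω := by
    intro τ hτ
    exact hGP (F τ) (A τ) (hAΩ τ hτ) (hF τ hτ)
  rw [Finset.sum_congr rfl e1, Finset.sum_congr rfl e2]
  exact key

end TP.TW
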