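import Pool.Agent.helper48.TH.Spec2

set_option autoImplicit false

namespace TP.TW

open DP MeasureTheory Finset

theorem PLR_term (R : ℕ) (N : ℝ) (hN : 3 ≤ N) (ℓ : ℝ) (hℓ : 0 ≤ ℓ) (p : ℝ) (hp0 : 0 ≤ p) (hp1 : p ≤ 1) :
    p * (Real.log (1 / p) + ℓ) ^ R ≤
      2 ^ R * p * (Real.log N + ℓ) ^ R + (1 / N) * ((R.factorial : ℝ) * 2 ^ R * Real.exp (1 / 2)) * (Real.log N + ℓ) ^ R := by
  have hNpos : 0 < N := by linarith
  have hl : 1 ≤ Real.log N := by
    rw [Real.le_log_iff_exp_le hNpos]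
    have := Real.exp_one_lt_d9
    linarith
  have hlℓ : 0 ≤ Real.log N + ℓ := by linarith
  have hpow : 0 ≤ (Real.log N + ℓ) ^ R := pow_nonneg hlℓ R
  rcases hp0.eq_or_lt with h0 | hpos
  · rw [← h0]
    have : 0 ≤ (1 / N) * ((R.factorial : ℝ) * 2 ^ R * Real.exp (1 / 2)) * (Real.log N + ℓ) ^ R := by positivity
    simpa using this
  · set x := Real.log (1 / p) with hx
    have hx0 : 0 ≤ x := Real.log_nonneg (by rw [le_div_iff₀ hpos]; linarith)
    have hpx : p = Real.exp (-x) := by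
      rw [hx, one_div, Real.log_inv, neg_neg, Real.exp_log hpos]
    by_cases hc : x ≤ 2 * Real.log N
    · have h1 : (x + ℓ) ^ R ≤ (2 * (Real.log N + ℓ)) ^ R :=
        pow_le_pow_left₀ (by linarith) (by linarith) R
      have h2 : p * (x + ℓ) ^ R ≤ p * (2 * (Real.log N + ℓ)) ^ R := mul_le_mul_of_nonneg_left h1 hp0
      have h3 : p * (2 * (Real.log N + ℓ)) ^ R = 2 ^ R * p * (Real.log N + ℓ) ^ R := by
        rw [mul_pow]; ring
      have h4 : 0 ≤ (1 / N) * ((R.factorial : ℝ) * 2 ^ R * Real.exp (1 / 2)) * (Real.log N + ℓ) ^ R := by positivity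
      linarith
    · have hc' : 2 * Real.log N < x := not_le.mp hc
      have h1 : Real.exp (-x) = Real.exp (-(x / 2)) * Real.exp (-(x / 2)) := by
        rw [← Real.exp_add]; congr 1; ring
      have h2 : Real.exp (-(x / 2)) ≤ 1 / N := by
        rw [one_div, ← Real.exp_log hNpos, ← Real.exp_neg]
        apply Real.exp_le_exp.mpr
        linarith
      have h3 : (x + ℓ) ^ R ≤ (1 + x) ^ R * (Real.log N + ℓ) ^ R := by
        rw [← mul_pow]
        apply pow_le_pow_left₀ (by linarith)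
        nlinarith [mul_nonneg hx0 (by linarith : 0 ≤ Real.log N - 1), mul_nonneg hx0 hℓ]
      have h4 : (1 + x) ^ R * Real.exp (-(x / 2)) ≤ (R.factorial : ℝ) * 2 ^ R * Real.exp (1 / 2) := by
        have h5 := Real.pow_div_factorial_le_exp ((1 + x) / 2) (by linarith) R
        have hf : (0 : ℝ) < R.factorial := by exact_mod_cast Nat.factorial_pos R
        rw [div_le_iff₀ hf, div_pow, div_le_iff₀ (by positivity)] at h5
        have h6 : Real.exp ((1 + x) / 2) * Real.exp (-(x / 2)) = Real.exp (1 / 2) := by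
          rw [← Real.exp_add]; congr 1; ring
        calc (1 + x) ^ R * Real.exp (-(x / 2)) ≤ (Real.exp ((1 + x) / 2) * R.factorial * 2 ^ R) * Real.exp (-(x / 2)) :=
              mul_le_mul_of_nonneg_right h5 (Real.exp_pos _).le
          _ = (R.factorial : ℝ) * 2 ^ R * (Real.exp ((1 + x) / 2) * Real.exp (-(x / 2))) := by ring
          _ = _ := by rw [h6]
      have h7 : p * (x + ℓ) ^ R ≤ (1 / N) * ((R.factorial : ℝ) * 2 ^ R * Real.exp (1 / 2)) * (Real.log N + ℓ) ^ R := by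
        rw [hpx, h1]
        have hA : 0 ≤ Real.exp (-(x / 2)) := (Real.exp_pos _).le
        calc Real.exp (-(x / 2)) * Real.exp (-(x / 2)) * (x + ℓ) ^ R
            ≤ Real.exp (-(x / 2)) * Real.exp (-(x / 2)) * ((1 + x) ^ R * (Real.log N + ℓ) ^ R) :=
              mul_le_mul_of_nonneg_left h3 (mul_nonneg hA hA)
          _ = Real.exp (-(x / 2)) * (((1 + x) ^ R * Real.exp (-(x / 2))) * (Real.log N + ℓ) ^ R) := by ring
          _ ≤ (1 / N) * (((R.factorial : ℝ) * 2 ^ R * Real.exp (1 / 2)) * (Real.log N + ℓ) ^ R) := by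
              apply mul_le_mul h2 (mul_le_mul_of_nonneg_right h4 hpow)
              · apply mul_nonneg (mul_nonneg (pow_nonneg (by linarith) R) hA) hpow
              · positivity
          _ = _ := by ring
      have h8 : 0 ≤ 2 ^ R * p * (Real.log N + ℓ) ^ R := by positivity
      linarith

theorem PLR : PLR_stmt := by
  intro R
  have hf : (0 : ℝ) < R.factorial := by exact_mod_cast Nat.factorial_pos R
  refine ⟨2 ^ R + (R.factorial : ℝ) * 2 ^ R * Real.exp (1 / 2), by positivity, ?_⟩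
  intro U p ℓ hℓ hp
  set K : ℝ := (R.factorial : ℝ) * 2 ^ R * Real.exp (1 / 2) with hK
  have hK0 : 0 < K := by positivity
  have hN : (3 : ℝ) ≤ (#U : ℝ) + 3 := by
    have : (0 : ℝ) ≤ #U := Nat.cast_nonneg _
    linarith
  have hl : 0 ≤ Real.log ((#U : ℝ) + 3) := Real.log_nonneg (by linarith)
  set W : ℝ := (Real.log ((#U : ℝ) + 3) + ℓ) ^ R with hW
  have hW0 : 0 ≤ W := pow_nonneg (by linarith) R
  have h1 : ∑ z ∈ U, p z * (Real.log (1 / p z) + ℓ) ^ R ≤ ∑ z ∈ U, (2 ^ R * p z * W + (1 / ((#U : ℝ) + 3)) * K * W) :=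
    Finset.sum_le_sum (fun z hz => PLR_term R _ hN ℓ hℓ (p z) (hp z hz).1 (hp z hz).2)
  refine h1.trans ?_
  rw [Finset.sum_add_distrib, Finset.sum_const, nsmul_eq_mul, ← Finset.sum_mul, ← Finset.mul_sum]
  have hS : 0 ≤ ∑ z ∈ U, p z := Finset.sum_nonneg (fun z hz => (hp z hz).1)
  have h2 : (#U : ℝ) * ((1 / ((#U : ℝ) + 3)) * K * W) ≤ K * W := by
    have h3 : (#U : ℝ) * (1 / ((#U : ℝ) + 3)) ≤ 1 := by
      rw [mul_one_div, div_le_one (by linarith)]
      linarith
    calc (#U : ℝ) * ((1 / ((#U : ℝ) + 3)) * K * W) = ((#U : ℝ) * (1 / ((#U : ℝ) + 3))) * (K * W) := by ring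
      _ ≤ 1 * (K * W) := mul_le_mul_of_nonneg_right h3 (mul_nonneg hK0.le hW0)
      _ = K * W := one_mul _
  have h4 : 0 ≤ 2 ^ R * W := by positivity
  have h5 : 0 ≤ K * (∑ z ∈ U, p z) * W := by positivity
  nlinarith [h2, h4, h5]

end TP.TW
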